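import Pool.Agent.W2helper50.MG.Stm
import Pool.Agent.H628R3.RO.A2
import Pool.Agent.W2helper61.Mes.Base

/-!
# The null cover is computable in polynomial time (COMP)
-/

set_option autoImplicit false

namespace Pool.Agent.W2helper69.MG

open Pool.Agent.NPC Pool.Agent.H628R3.RO Pool.Agent.H622R2
open Pool.Agent.W2helper61.Mes (ones str pre IsDensity Names Approx LB Acc)
open Pool.Agent.W2helper50.MG

section Tools

variable {α : Type} [TEnc α]

theorem poly_rep {m : α → ℕ} (hm : UPoly m) (b : Bool) :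
    NPC.Poly (fun a => List.replicate (m a) b) :=
  (NPC.Poly.map (F := fun _ _ => b) hm (NPC.Poly.const b)).congr fun a => by simp

theorem poly_pow {m : α → ℕ} (hm : UPoly m) : NPC.Poly (fun a => 2 ^ m a) := by
  refine (NPC.Poly.valBits (NPC.Poly.append (poly_rep hm false)
    (NPC.Poly.const [true]))).congr fun a => ?_
  rw [valB_replicate_false]; simp

theorem upoly_min_left {m n : α → ℕ} (hm : UPoly m) (hn : NPC.Poly n) :
    UPoly (fun a => min (m a) (n a)) :=
  UPoly.of_le (NPC.Poly.min hm.toPoly hn) hm (fun _ => min_le_left _ _)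

theorem upoly_min_right {m n : α → ℕ} (hm : NPC.Poly m) (hn : UPoly n) :
    UPoly (fun a => min (m a) (n a)) :=
  UPoly.of_le (NPC.Poly.min hm hn.toPoly) hn (fun _ => min_le_right _ _)

theorem upoly_sub {m n : α → ℕ} (hm : UPoly m) (hn : NPC.Poly n) :
    UPoly (fun a => m a - n a) :=
  UPoly.of_le (NPC.Poly.sub hm.toPoly hn) hm (fun _ => Nat.sub_le _ _)

theorem length_filter_lt (m n : ℕ) (h : m ≤ n) :
    ((List.range n).filter (fun k => decide (k < m))).length = m := by
  have : (List.range n).filter (fun k => decide (k < m)) = List.range m := by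
    obtain ⟨d, rfl⟩ := Nat.exists_eq_add_of_le h
    rw [List.range_add, List.filter_append]
    have h1 : (List.range m).filter (fun k => decide (k < m)) = List.range m := by
      rw [List.filter_eq_self]
      intro k hk
      simpa using hk
    have h2 : ((List.range d).map (fun x => m + x)).filter (fun k => decide (k < m)) = [] := by
      rw [List.filter_eq_nil_iff]
      intro k hk
      simp at hk ⊢
      omega
    rw [h1, h2, List.append_nil]
  rw [this, List.length_range]

theorem upoly_sqrt {n : α → ℕ} (hn : UPoly n) : UPoly (fun a => Nat.sqrt (n a)) := by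
  have h1 : NPC.Poly (fun a => (List.range (n a)).filter
      (fun k => decide ((k + 1) * (k + 1) ≤ n a))) :=
    NPC.Poly.filter (p := fun a k => decide ((k + 1) * (k + 1) ≤ n a)) hn.range
      (NPC.Poly.decide_le (NPC.Poly.mul (NPC.Poly.succ (NPC.Poly.snd NPC.Poly.id))
        (NPC.Poly.succ (NPC.Poly.snd NPC.Poly.id))) (hn.toPoly.comp (NPC.Poly.fst NPC.Poly.id)))
  have h2 := UPoly.length h1
  have h3 : (fun a => ((List.range (n a)).filter
      (fun k => decide ((k + 1) * (k + 1) ≤ n a))).length) = fun a => Nat.sqrt (n a) := by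
    funext a
    rw [← length_filter_lt (Nat.sqrt (n a)) (n a) (Nat.sqrt_le_self _)]
    congr 2
    funext k
    rw [decide_eq_decide]
    rw [← Nat.le_sqrt]
    exact Iff.rfl
  rwa [h3] at h2

theorem upoly_g {g : ℕ → ℕ} (hg : UnaryPoly g) {m : α → ℕ} (hm : UPoly m) :
    UPoly (fun a => g (m a)) := by
  obtain ⟨G, hG, hGg⟩ := hg
  have h1 : NPC.Poly (fun a => G (ones (m a))) := (poly_of_polyTime hG).comp (poly_rep hm true)
  have h2 := UPoly.length h1
  have h3 : (fun a => (G (ones (m a))).length) = fun a => g (m a) := by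
    funext a
    rw [hGg]
    simp [ones]
  rwa [h3] at h2

theorem upoly_st {g : ℕ → ℕ} (hg : UnaryPoly g) {m : α → ℕ} (hm : UPoly m) :
    UPoly (fun a => st g (m a)) :=
  upoly_sqrt (upoly_sqrt (upoly_min_left (upoly_g hg hm) hm.toPoly))

end Tools

/-! ### The input -/

/-- the word of the input -/
def W (x : List Bool) : List Bool := (unpair (unpair x).2).2

/-- the length of the word of the input -/
def N (x : List Bool) : ℕ := (W x).length

/-- the number of the binary digits of the length of the word -/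
def S (x : List Bool) : ℕ := (N x).size

/-- the unary number of the input -/
def K (x : List Bool) : ℕ := (unpair x).1.length

theorem poly_W : NPC.Poly W := NPC.Poly.snd (poly_unpair.comp (NPC.Poly.snd poly_unpair))

theorem upoly_N : UPoly N := UPoly.length poly_W

theorem upoly_S : UPoly S := by
  have h1 := UPoly.length (NPC.Poly.natBits upoly_N.toPoly)
  have h3 : (fun a => (N a).bits.length) = S := by
    funext a
    exact Nat.size_eq_bits_len _
  rwa [h3] at h1

theorem upoly_K : UPoly K := UPoly.length (NPC.Poly.fst poly_unpair)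

/-- the indices of the queries -/
def Q' (x : List Bool) : List (ℕ × ℕ × ℕ) :=
  (List.range (S x)).flatMap fun m => (List.range (S x)).flatMap fun i =>
    (List.range (3 * S x)).map fun t => (m, i, t)

theorem mem_Q' {x : List Bool} {q : ℕ × ℕ × ℕ} :
    q ∈ Q' x ↔ q.1 < S x ∧ q.2.1 < S x ∧ q.2.2 < 3 * S x := by
  unfold Q'
  simp only [List.mem_flatMap, List.mem_range, List.mem_map]
  constructor
  · rintro ⟨m, hm, i, hi, t, ht, rfl⟩
    exact ⟨hm, hi, ht⟩
  · rintro ⟨h1, h2, h3⟩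
    exact ⟨q.1, h1, q.2.1, h2, q.2.2, h3, rfl⟩

theorem poly_Q' : NPC.Poly Q' := by
  have hS := upoly_S
  refine NPC.Poly.flatMap (F := fun x m => (List.range (S x)).flatMap fun i =>
    (List.range (3 * S x)).map fun t => (m, i, t)) hS.range ?_
  refine NPC.Poly.flatMap (α := List Bool × ℕ) (F := fun x i =>
    (List.range (3 * S x.1)).map fun t => (x.2, i, t))
    (UPoly.comp (n := S) hS (NPC.Poly.fst NPC.Poly.id)).range ?_
  refine NPC.Poly.map (α := (List Bool × ℕ) × ℕ) (F := fun x t => (x.1.2, x.2, t))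
    (UPoly.comp (n := fun x => 3 * S x) (UPoly.mul (UPoly.const 3) hS)
      (f := fun p : (List Bool × ℕ) × ℕ => p.1.1)
      (NPC.Poly.fst (NPC.Poly.fst NPC.Poly.id))).range ?_
  exact NPC.Poly.pair (NPC.Poly.snd (NPC.Poly.fst (NPC.Poly.fst NPC.Poly.id)))
    (NPC.Poly.pair (NPC.Poly.snd (NPC.Poly.fst NPC.Poly.id)) (NPC.Poly.snd NPC.Poly.id))

/-- the query with a given index -/
def plq (x : List Bool) (q : ℕ × ℕ × ℕ) : List Bool :=
  List.replicate (min (2 ^ (min q.1 (S x))) (N x)) true ++ false ::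
    (List.replicate (min q.2.1 (S x)) true ++ false ::
      List.replicate (min q.2.2 (3 * S x)) true)

theorem plq_eq {x : List Bool} {m i t : ℕ} (hm : m < S x) (hi : i < S x) (ht : t < 3 * S x) :
    plq x (m, i, t) = pl m i t := by
  unfold plq pl
  simp only
  rw [min_eq_left hm.le, min_eq_left hi.le, min_eq_left ht.le,
    min_eq_left (Nat.lt_size.1 hm)]

theorem poly_plq : NPC.Poly (fun p : List Bool × ℕ × ℕ × ℕ => plq p.1 p.2) := by
  have hx : NPC.Poly (fun p : List Bool × ℕ × ℕ × ℕ => p.1) := NPC.Poly.fst NPC.Poly.id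
  have hS : UPoly (fun p : List Bool × ℕ × ℕ × ℕ => S p.1) := UPoly.comp (n := S) upoly_S hx
  have hN : UPoly (fun p : List Bool × ℕ × ℕ × ℕ => N p.1) := UPoly.comp (n := N) upoly_N hx
  have h1 : NPC.Poly (fun p : List Bool × ℕ × ℕ × ℕ => p.2.1) :=
    NPC.Poly.fst (NPC.Poly.snd NPC.Poly.id)
  have h2 : NPC.Poly (fun p : List Bool × ℕ × ℕ × ℕ => p.2.2.1) :=
    NPC.Poly.fst (NPC.Poly.snd (NPC.Poly.snd NPC.Poly.id))
  have h3 : NPC.Poly (fun p : List Bool × ℕ × ℕ × ℕ => p.2.2.2) :=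
    NPC.Poly.snd (NPC.Poly.snd (NPC.Poly.snd NPC.Poly.id))
  exact NPC.Poly.append (poly_rep (upoly_min_right (poly_pow (upoly_min_right h1 hS)) hN) true)
    (NPC.Poly.cons (NPC.Poly.const false) (NPC.Poly.append
      (poly_rep (upoly_min_right h2 hS) true) (NPC.Poly.cons (NPC.Poly.const false)
        (poly_rep (upoly_min_right h3 (UPoly.mul (UPoly.const 3) hS)) true))))

/-- the queries -/
def Q (x : List Bool) : List (List Bool) := (Q' x).map (plq x)

theorem poly_Q : NPC.Poly Q := NPC.Poly.map poly_Q' poly_plq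

/-! ### The output -/

/-- the context: the input, the answers, `m` and `i` -/
abbrev Ctx : Type := ((List Bool × List Bool) × ℕ) × ℕ

/-- the answers with their indices -/
def L (c : List Bool × List Bool) : List ((ℕ × ℕ × ℕ) × Bool) := (Q' c.1).zip c.2

theorem poly_L : NPC.Poly L :=
  NPC.Poly.zip (poly_Q'.comp (NPC.Poly.fst NPC.Poly.id)) (NPC.Poly.snd NPC.Poly.id)

theorem zip_map_self {α β : Type} (f : α → β) (l : List α) :
    l.zip (l.map f) = l.map (fun a => (a, f a)) := by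
  induction l with
  | nil => rfl
  | cons a l ih => simp [ih]

theorem L_eq (A : Oracle) (x : List Bool) :
    L (x, (Q x).map A) = (Q' x).map (fun q => (q, A (plq x q))) := by
  unfold L Q
  simp only [List.map_map]
  exact zip_map_self _ _

/-- the truncated `m` -/
def mu (p : Ctx) : ℕ := min p.1.2 (S p.1.1.1)

theorem px : NPC.Poly (fun p : Ctx => p.1.1.1) :=
  NPC.Poly.fst (NPC.Poly.fst (NPC.Poly.fst NPC.Poly.id))

theorem upoly_mu : UPoly mu :=
  upoly_min_right (NPC.Poly.snd (NPC.Poly.fst NPC.Poly.id))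
    (UPoly.comp (n := S) upoly_S (f := fun p : Ctx => p.1.1.1) px)

theorem upoly_NC : UPoly (fun p : Ctx => N p.1.1.1) :=
  UPoly.comp (n := N) upoly_N (f := fun p : Ctx => p.1.1.1) px

/-- the check of one bit -/
def chk (g : ℕ → ℕ) (p : Ctx) (q : (ℕ × ℕ × ℕ) × Bool) : Bool :=
  (!(decide (q.1.1 = p.1.2) && (decide (q.1.2.1 = p.2) && (decide (q.1.2.2 < 3 * st g (mu p)) &&
    decide (2 ^ mu p - 1 + q.1.2.2 < N p.1.1.1))))) ||
    decide ((W p.1.1.1).getD (2 ^ mu p - 1 + q.1.2.2) false = q.2)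

theorem poly_chk {g : ℕ → ℕ} (hg : UnaryPoly g) :
    NPC.Poly (fun z : Ctx × ((ℕ × ℕ × ℕ) × Bool) => chk g z.1 z.2) := by
  have hp : NPC.Poly (fun z : Ctx × ((ℕ × ℕ × ℕ) × Bool) => z.1) := NPC.Poly.fst NPC.Poly.id
  have hq : NPC.Poly (fun z : Ctx × ((ℕ × ℕ × ℕ) × Bool) => z.2.1) :=
    NPC.Poly.fst (NPC.Poly.snd NPC.Poly.id)
  have hb : NPC.Poly (fun z : Ctx × ((ℕ × ℕ × ℕ) × Bool) => z.2.2) :=
    NPC.Poly.snd (NPC.Poly.snd NPC.Poly.id)
  have hmu : UPoly (fun z : Ctx × ((ℕ × ℕ × ℕ) × Bool) => mu z.1) :=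
    UPoly.comp (n := mu) upoly_mu hp
  have hN : UPoly (fun z : Ctx × ((ℕ × ℕ × ℕ) × Bool) => N z.1.1.1.1) :=
    UPoly.comp (n := fun p : Ctx => N p.1.1.1) upoly_NC hp
  have hW : NPC.Poly (fun z : Ctx × ((ℕ × ℕ × ℕ) × Bool) => W z.1.1.1.1) :=
    NPC.Poly.comp (g := fun p : Ctx => W p.1.1.1) (poly_W.comp px) hp
  have hidx : NPC.Poly (fun z : Ctx × ((ℕ × ℕ × ℕ) × Bool) => 2 ^ mu z.1 - 1 + z.2.1.2.2) :=
    NPC.Poly.add (NPC.Poly.sub (poly_pow hmu) (NPC.Poly.const 1)) (NPC.Poly.snd (NPC.Poly.snd hq))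
  exact NPC.Poly.or (NPC.Poly.not (NPC.Poly.and
    (NPC.Poly.decide_eq (NPC.Poly.fst hq) (NPC.Poly.snd (NPC.Poly.fst hp)))
    (NPC.Poly.and (NPC.Poly.decide_eq (NPC.Poly.fst (NPC.Poly.snd hq)) (NPC.Poly.snd hp))
      (NPC.Poly.and (NPC.Poly.decide_lt (NPC.Poly.snd (NPC.Poly.snd hq))
        (UPoly.mul (UPoly.const 3) (upoly_st hg hmu)).toPoly)
        (NPC.Poly.decide_lt hidx hN.toPoly)))))
    (NPC.Poly.decide_eq (NPC.Poly.getD hW hidx (NPC.Poly.const false)) hb)

/-- the capital of a player -/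
def en (g : ℕ → ℕ) (p : Ctx) : ℕ :=
  bif (L p.1.1).all (chk g p) then 2 ^ (min (3 * st g (mu p)) (N p.1.1.1 - (2 ^ mu p - 1))) else 0

theorem poly_en {g : ℕ → ℕ} (hg : UnaryPoly g) : NPC.Poly (en g) := by
  refine NPC.Poly.cond (NPC.Poly.all (p := chk g) (l := fun p : Ctx => L p.1.1) (poly_L.comp
    (NPC.Poly.fst (NPC.Poly.fst NPC.Poly.id))) (poly_chk hg)) (poly_pow (upoly_min_left
    (UPoly.mul (UPoly.const 3) (upoly_st hg upoly_mu)) ?_)) (NPC.Poly.const 0)
  exact NPC.Poly.sub upoly_NC.toPoly (NPC.Poly.sub (poly_pow upoly_mu) (NPC.Poly.const 1))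

/-- the weight of a player -/
def ex (g : ℕ → ℕ) (p : Ctx) : ℕ := 2 ^ ((2 * N p.1.1.1 + 4) - (p.2 + st g (mu p) + 2))

theorem poly_ex {g : ℕ → ℕ} (hg : UnaryPoly g) : NPC.Poly (ex g) :=
  poly_pow (upoly_sub (UPoly.add (UPoly.mul (UPoly.const 2) upoly_NC) (UPoly.const 4))
    (NPC.Poly.add (NPC.Poly.add (NPC.Poly.snd NPC.Poly.id) (upoly_st hg upoly_mu).toPoly)
      (NPC.Poly.const 2)))

/-- the sum over the players for one length -/
def isum (g : ℕ → ℕ) (T : Ctx → ℕ) (p : (List Bool × List Bool) × ℕ) : ℕ :=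
  bif decide (st g (min p.2 (S p.1.1) - 1) < st g (min p.2 (S p.1.1))) then
    ((List.range (st g (min p.2 (S p.1.1)))).map (fun i => T (p, i))).sum else 0

theorem poly_isum {g : ℕ → ℕ} (hg : UnaryPoly g) {T : Ctx → ℕ} (hT : NPC.Poly T) :
    NPC.Poly (isum g T) := by
  have hc : NPC.Poly (fun p : (List Bool × List Bool) × ℕ => p.1.1) :=
    NPC.Poly.fst (NPC.Poly.fst NPC.Poly.id)
  have hS : UPoly (fun p : (List Bool × List Bool) × ℕ => S p.1.1) :=
    UPoly.comp (n := S) upoly_S hc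
  have hm : UPoly (fun p : (List Bool × List Bool) × ℕ => min p.2 (S p.1.1)) :=
    upoly_min_right (NPC.Poly.snd NPC.Poly.id) hS
  have hm1 : UPoly (fun p : (List Bool × List Bool) × ℕ => min p.2 (S p.1.1) - 1) :=
    upoly_sub hm (NPC.Poly.const 1)
  have hs : UPoly (fun p : (List Bool × List Bool) × ℕ => st g (min p.2 (S p.1.1))) :=
    upoly_st hg hm
  have hs1 : UPoly (fun p : (List Bool × List Bool) × ℕ => st g (min p.2 (S p.1.1) - 1)) :=
    upoly_st hg hm1
  have hl : NPC.Poly (fun p : (List Bool × List Bool) × ℕ =>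
      ((List.range (st g (min p.2 (S p.1.1)))).map (fun i => T (p, i)))) :=
    NPC.Poly.map (F := fun (p : (List Bool × List Bool) × ℕ) (i : ℕ) => T (p, i)) hs.range
      (hT.comp (NPC.Poly.pair (NPC.Poly.fst NPC.Poly.id) (NPC.Poly.snd NPC.Poly.id)))
  exact NPC.Poly.cond (NPC.Poly.decide_lt hs1.toPoly hs.toPoly) (NPC.Poly.sum hl)
    (NPC.Poly.const 0)

/-- the double sum -/
def dsum (g : ℕ → ℕ) (T : Ctx → ℕ) (c : List Bool × List Bool) : ℕ :=
  ((List.range (S c.1)).map (fun m => isum g T (c, m))).sum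

theorem poly_dsum {g : ℕ → ℕ} (hg : UnaryPoly g) {T : Ctx → ℕ} (hT : NPC.Poly T) :
    NPC.Poly (dsum g T) := by
  have hS : UPoly (fun c : List Bool × List Bool => S c.1) :=
    UPoly.comp (n := S) upoly_S (f := fun c : List Bool × List Bool => c.1)
        (NPC.Poly.fst NPC.Poly.id)
  have hl : NPC.Poly (fun c : List Bool × List Bool =>
      ((List.range (S c.1)).map (fun m => isum g T (c, m)))) :=
    NPC.Poly.map (F := fun (c : List Bool × List Bool) (m : ℕ) => isum g T (c, m)) hS.range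
      ((poly_isum hg hT).comp
        (NPC.Poly.pair (NPC.Poly.fst NPC.Poly.id) (NPC.Poly.snd NPC.Poly.id)))
  exact NPC.Poly.sum hl

/-- the positive part -/
def Pos (g : ℕ → ℕ) (c : List Bool × List Bool) : ℕ :=
  2 ^ (2 * N c.1 + 4) + dsum g (fun p => ex g p * en g p) c

/-- the negative part -/
def Neg (g : ℕ → ℕ) (c : List Bool × List Bool) : ℕ := dsum g (ex g) c

/-- the output -/
def H (g : ℕ → ℕ) (c : List Bool × List Bool) : List Bool :=
  decide (Pos g c < Neg g c) ::
    pairBits ((Pos g c - Neg g c) + (Neg g c - Pos g c)).bits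
      (List.replicate (K c.1 + (2 * N c.1 + 4)) true)

theorem poly_H {g : ℕ → ℕ} (hg : UnaryPoly g) : NPC.Poly (H g) := by
  have hx : NPC.Poly (fun c : List Bool × List Bool => c.1) := NPC.Poly.fst NPC.Poly.id
  have hN : UPoly (fun c : List Bool × List Bool => 2 * N c.1 + 4) :=
    UPoly.add (UPoly.mul (UPoly.const 2) (UPoly.comp (n := N) upoly_N hx)) (UPoly.const 4)
  have hP : NPC.Poly (Pos g) :=
    NPC.Poly.add (poly_pow hN) (poly_dsum hg (NPC.Poly.mul (poly_ex hg) (poly_en hg)))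
  have hM : NPC.Poly (Neg g) := poly_dsum hg (poly_ex hg)
  exact NPC.Poly.cons (NPC.Poly.decide_lt hP hM) (poly_pairBits
    (NPC.Poly.natBits (NPC.Poly.add (NPC.Poly.sub hP hM) (NPC.Poly.sub hM hP)))
    (poly_rep (UPoly.add (UPoly.comp (n := K) upoly_K hx) hN) true))

/-! ### Correctness -/

theorem st_le (g : ℕ → ℕ) (m : ℕ) : st g m ≤ m :=
  (Nat.sqrt_le_self _).trans ((Nat.sqrt_le_self _).trans (min_le_right _ _))

theorem chk_iff (g : ℕ → ℕ) (p : Ctx) (q : (ℕ × ℕ × ℕ) × Bool) : chk g p q = true ↔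
    (q.1.1 = p.1.2 → q.1.2.1 = p.2 → q.1.2.2 < 3 * st g (mu p) →
      2 ^ mu p - 1 + q.1.2.2 < N p.1.1.1 →
      (W p.1.1.1).getD (2 ^ mu p - 1 + q.1.2.2) false = q.2) := by
  unfold chk
  simp only [Bool.or_eq_true, Bool.not_eq_true', Bool.and_eq_false_iff, decide_eq_false_iff_not,
    decide_eq_true_eq]
  tauto

theorem en_eq (g : ℕ → ℕ) (A : Oracle) (x : List Bool) {m i : ℕ} (hm : m < S x)
    (hi : i < st g m) :
    en g (((x, (Q x).map A), m), i) = EN g (fun m i t => A (pl m i t)) m i (W x) := by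
  have hmu : mu (((x, (Q x).map A), m), i) = m := min_eq_left hm.le
  have hst := st_le g m
  have key : (L (x, (Q x).map A)).all (chk g (((x, (Q x).map A), m), i)) = true ↔
      Agr g (fun m i t => A (pl m i t)) m i (W x) := by
    rw [L_eq, List.all_eq_true]
    unfold Agr
    constructor
    · intro h t ht ht'
      have h1 : (m, i, t) ∈ Q' x := mem_Q'.2 ⟨hm, by simp only; omega, by simp only; omega⟩
      have h2 := h _ (List.mem_map_of_mem h1)
      rw [chk_iff, hmu] at h2
      have h3 := h2 rfl rfl ht ht'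
      rw [plq_eq hm (by omega) (by omega)] at h3
      exact h3
    · intro h q hq
      rw [List.mem_map] at hq
      obtain ⟨⟨m', i', t⟩, hq', rfl⟩ := hq
      rw [chk_iff, hmu]
      intro e1 e2 ht ht'
      simp only at e1 e2 ht ht'
      subst e1 e2
      have h3 := mem_Q'.1 hq'
      simp only at h3
      have h4 := h t ht ht'
      simp only
      rw [h4, plq_eq h3.1 h3.2.1 h3.2.2]
  unfold en EN
  simp only [hmu]
  by_cases hA : Agr g (fun m i t => A (pl m i t)) m i (W x)
  · rw [key.2 hA, if_pos hA, cond_true]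
    rfl
  · rw [if_neg hA]
    have : (L (x, (Q x).map A)).all (chk g (((x, (Q x).map A), m), i)) = false := by
      rw [← Bool.not_eq_true]
      exact fun h => hA (key.1 h)
    rw [this, cond_false]

theorem sum_range_list (n : ℕ) (f : ℕ → ℕ) :
    ((List.range n).map f).sum = ∑ i ∈ Finset.range n, f i := by
  induction n with
  | zero => rfl
  | succ n ih => rw [List.range_succ, List.map_append, List.sum_append, ih,
      Finset.sum_range_succ]; simp

theorem dsum_eq (g : ℕ → ℕ) (T : Ctx → ℕ) (T' : ℕ → ℕ → ℕ) (c : List Bool × List Bool)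
    (h : ∀ m < S c.1, ∀ i < st g m, T ((c, m), i) = T' m i) :
    dsum g T c = ∑ m ∈ (Finset.range (S c.1)).filter (act g),
      ∑ i ∈ Finset.range (st g m), T' m i := by
  unfold dsum
  rw [sum_range_list, Finset.sum_filter]
  refine Finset.sum_congr rfl fun m hm => ?_
  have hm' := Finset.mem_range.1 hm
  unfold isum
  simp only
  rw [min_eq_left hm'.le]
  unfold act
  by_cases h1 : st g (m - 1) < st g m
  · rw [if_pos h1, decide_eq_true h1, cond_true, sum_range_list]
    exact Finset.sum_congr rfl fun i hi => h m hm' i (Finset.mem_range.1 hi)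
  · rw [if_neg h1, decide_eq_false h1, cond_false]

theorem size_le_self' (n : ℕ) : n.size ≤ n := Nat.size_le.2 Nat.lt_two_pow_self

/-- the exponent -/
def ee (g : ℕ → ℕ) (n m i : ℕ) : ℕ := (2 * n + 4) - (i + st g m + 2)

theorem ex_eq (g : ℕ → ℕ) (c : List Bool × List Bool) {m i : ℕ} (hm : m < S c.1) :
    ex g ((c, m), i) = 2 ^ ee g (N c.1) m i := by
  have hmu : mu ((c, m), i) = m := min_eq_left hm.le
  unfold ex
  rw [hmu]
  rfl

theorem main_eq (g : ℕ → ℕ) (A : Oracle) (x : List Bool) (k : ℕ) :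
    dd g (fun m i t => A (pl m i t)) k (W x) =
      ((Pos g (x, (Q x).map A) : ℝ) - (Neg g (x, (Q x).map A) : ℝ)) /
        2 ^ (k + (2 * N x + 4)) := by
  have h1 : Pos g (x, (Q x).map A) = 2 ^ (2 * N x + 4) +
      ∑ m ∈ (Finset.range (S x)).filter (act g), ∑ i ∈ Finset.range (st g m),
        2 ^ ee g (N x) m i *
          EN g (fun m i t => A (pl m i t)) m i (W x) := by
    unfold Pos
    rw [dsum_eq g _ (fun m i => 2 ^ ee g (N x) m i *
          EN g (fun m i t => A (pl m i t)) m i (W x))]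
    intro m hm i hi
    rw [ex_eq g _ hm, en_eq g A x hm hi]
  have h2 : Neg g (x, (Q x).map A) =
      ∑ m ∈ (Finset.range (S x)).filter (act g), ∑ i ∈ Finset.range (st g m),
        2 ^ ee g (N x) m i := by
    unfold Neg
    rw [dsum_eq g _ (fun m i => 2 ^ ee g (N x) m i)]
    intro m hm i hi
    rw [ex_eq g _ hm]
  rw [h1, h2, Nat.cast_add, Nat.cast_pow, Nat.cast_sum, Nat.cast_sum, Nat.cast_ofNat]
  unfold dd
  rw [eq_div_iff (by positivity), pow_add (2 : ℝ) k]
  have h3 : ((2 : ℝ) ^ k) ≠ 0 := by positivity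
  have h4 : ∀ X : ℝ, ((1 / 2 : ℝ) ^ k) * X * (2 ^ k * 2 ^ (2 * N x + 4)) =
      2 ^ (2 * N x + 4) * X := by
    intro X
    rw [one_div, inv_pow]
    field_simp
  rw [h4, mul_add, mul_one, add_sub_assoc, ← Finset.sum_sub_distrib, Finset.mul_sum]
  congr 1
  refine Finset.sum_congr rfl fun m hm => ?_
  rw [Nat.cast_sum, Nat.cast_sum, ← Finset.sum_sub_distrib, Finset.mul_sum]
  refine Finset.sum_congr rfl fun i hi => ?_
  have hm' : m < S x := Finset.mem_range.1 (Finset.mem_filter.1 hm).1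
  have hi' := Finset.mem_range.1 hi
  have hst := st_le g m
  have hSN : S x ≤ N x := size_le_self' _
  have h5 : i + st g m + 2 ≤ 2 * N x + 4 := by omega
  have h6 : (2 : ℝ) ^ (2 * N x + 4) * (1 / 2) ^ (i + st g m + 2) =
      2 ^ ee g (N x) m i := by
    unfold ee
    rw [one_div, inv_pow, pow_sub₀ _ (by norm_num) h5]
  rw [← mul_assoc, h6, Nat.cast_mul, Nat.cast_pow, Nat.cast_ofNat]
  ring

theorem approx_eq (g : ℕ → ℕ) (A : Oracle) (x : List Bool) :
    Names (H g (x, (Q x).map A)) (dd g (fun m i t => A (pl m i t)) (K x) (W x)) := by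
  refine ⟨_, _, _, rfl, ?_⟩
  rw [main_eq, valB_bits, List.length_replicate, ← mul_div_assoc]
  congr 1
  rcases Nat.lt_or_ge (Pos g (x, (Q x).map A)) (Neg g (x, (Q x).map A)) with h | h
  · simp only [h, decide_true, if_true]
    rw [Nat.sub_eq_zero_of_le h.le, zero_add, Nat.cast_sub h.le]
    ring
  · simp only [not_lt.2 h, decide_false, Bool.false_eq_true, if_false]
    rw [Nat.sub_eq_zero_of_le h, add_zero, Nat.cast_sub h]
    ring

theorem comp : COMP := by
  intro g _ hg A
  refine ⟨_, IsFP.tt poly_Q (poly_H hg), ?_⟩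
  intro k r w
  have h1 := approx_eq g A (pairBits (ones k) (pairBits (ones r) w))
  have h2 : K (pairBits (ones k) (pairBits (ones r) w)) = k := by
    unfold K
    rw [unpair_pairBits]
    simp [ones]
  have h3 : W (pairBits (ones k) (pairBits (ones r) w)) = w := by
    unfold W
    rw [unpair_pairBits, unpair_pairBits]
  rw [h2, h3] at h1
  refine ⟨_, h1, ?_⟩
  rw [sub_self, abs_zero]
  positivity

end Pool.Agent.W2helper69.MG
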